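import Pool.Agent.QSB.StmtsX4
import Pool.Agent.Helper96_QSB.RYH

/-!
# Squad QSB, row RQH: the condition `RQ` for `SU (p, p + d)`, `Sp (p, p + d)`
(after helper96's row RYH)
-/

set_option autoImplicit false

namespace Pool.Agent.QSB.H13

open Matrix Finset Pool.Agent.QSX Pool.Agent.QSN Pool.Agent.QSB Pool.Agent.QSB.H96

/-- the trace of `B * Bᵀ` -/
theorem rqh_tr {k : ℕ} (B : Matrix (Fin k) (Fin k) ℝ) :
    Matrix.trace (B * Bᵀ) = ∑ a, ∑ b, B a b * B a b := by
  unfold Matrix.trace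
  refine Finset.sum_congr rfl fun a _ => ?_
  rw [Matrix.diag_apply, Matrix.mul_apply]
  refine Finset.sum_congr rfl fun b _ => ?_
  rw [Matrix.transpose_apply]

theorem rqh_nn {k : ℕ} (B : Matrix (Fin k) (Fin k) ℝ) : 0 ≤ Matrix.trace (B * Bᵀ) := by
  rw [rqh_tr]
  exact Finset.sum_nonneg fun a _ => Finset.sum_nonneg fun b _ => mul_self_nonneg _

theorem rqh_zero {k : ℕ} (B : Matrix (Fin k) (Fin k) ℝ) (h : Matrix.trace (B * Bᵀ) = 0) :
    B = 0 := by
  rw [rqh_tr, Finset.sum_eq_zero_iff_of_nonneg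
    (fun a _ => Finset.sum_nonneg fun b _ => mul_self_nonneg _)] at h
  ext a b
  have h1 := h a (Finset.mem_univ a)
  rw [Finset.sum_eq_zero_iff_of_nonneg (fun b _ => mul_self_nonneg _)] at h1
  exact mul_self_eq_zero.1 (h1 b (Finset.mem_univ b))

theorem rqh (ehm : EhmStmt) (ryh : RyhStmt) : RqhStmt := by
  intro p d k 𝔻 hk hT hdiv
  obtain ⟨h1, h2, h3, h4⟩ := ehm p d k hk 𝔻 hT
  have root : ∀ ρ : (datH p d 𝔻).b →ₗ[ℝ] ℝ, IsRt (datH p d 𝔻) ρ →
      ∃ v, Rs v ∧ ρ = FF p d hk 𝔻 v := by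
    rintro ρ ⟨z, hz, hz0⟩
    obtain ⟨x, hx, rfl⟩ := hz.1
    obtain ⟨a, b, hab⟩ := ex_block hz0
    have hρ := h2 ρ x hx hz a b hab
    rcases wt_place hk 𝔻 h3 hx hab with ⟨m, n, hmn, _, _, he⟩ | ⟨m, he⟩ | ⟨m, n, _, _, he⟩ |
      ⟨m, n, hmn, _, _, he⟩
    · exact ⟨_, Or.inl ⟨m, n, hmn, rfl⟩, hρ.trans he⟩
    · exact ⟨_, Or.inr (Or.inl ⟨m, rfl⟩), hρ.trans he⟩
    · exact ⟨_, Or.inr (Or.inr ⟨m, n, rfl⟩), hρ.trans he⟩
    · exact ⟨_, Or.inl ⟨n, m, hmn, rfl⟩, hρ.trans he⟩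
  have dbl : ∀ ρ : (datH p d 𝔻).b →ₗ[ℝ] ℝ, IsRt (datH p d 𝔻) ρ →
      IsRt (datH p d 𝔻) ((2 : ℝ) • ρ) → ∃ i : Fin p, ρ = FF p d hk 𝔻 (ee i) := by
    intro ρ hρ hρ2
    obtain ⟨v, hv, rfl⟩ := root ρ hρ
    obtain ⟨w, hw, hvw⟩ := root _ hρ2
    rw [← FF_smul] at hvw
    have h5 := FF_inj hk 𝔻 h4 hvw
    rw [← h5] at hw
    obtain ⟨i, hi⟩ := Rs_dbl hv hw
    exact ⟨i, by rw [hi]⟩
  have opt : ∀ (i : Fin p) (γ : (datH p d 𝔻).b →ₗ[ℝ] ℝ), IsRt (datH p d 𝔻) γ →
      IsRt (datH p d 𝔻) (FF p d hk 𝔻 (ee i) + γ) →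
      IsRt (datH p d 𝔻) ((2 : ℝ) • FF p d hk 𝔻 (ee i) + γ) ∨
        ∃ j, γ = FF p d hk 𝔻 (ee j) := by
    intro i γ hγ hs
    obtain ⟨u, hu, rfl⟩ := root γ hγ
    obtain ⟨u', hu', huu⟩ := root _ hs
    rw [← FF_add] at huu
    have h5 := FF_inj hk 𝔻 h4 huu
    have hsm : sm u' = 1 + sm u := by rw [← h5, sm_add, sm_ee]
    rcases Rs_sm hu with h | h | h
    · left
      obtain ⟨j, n, hjn, rfl⟩ := Rs_zero hu h
      obtain ⟨a, rfl⟩ := Rs_one hu' (by rw [hsm, h, add_zero])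
      have hni : n = i := by
        refine sub_fix1 hjn 1 (a := a) ?_
        rw [← h5, one_smul, add_comm]
      subst hni
      have hlt : io p d j < sg p d (io p d n) := by
        rw [Fin.lt_def, io_val, sg_io_val]
        have := j.2
        have := n.2
        omega
      obtain ⟨h6, h7⟩ := h1 (io p d j) (sg p d (io p d n)) hlt (fun h => io_out j h.1) 1
        𝔻.one_mem
      have h8 : cH p d hk 𝔻 (io p d j) - cH p d hk 𝔻 (sg p d (io p d n)) =
          (2 : ℝ) • FF p d hk 𝔻 (ee n) + FF p d hk 𝔻 (ee j - ee n) := by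
        rw [h3, FF_sub, FF_ee, FF_ee, two_smul]
        abel
      rw [h8] at h7
      refine ⟨_, h7, ?_⟩
      intro h9
      have h9' : blk k (2 * p + d) (eH p d (io p d j) (sg p d (io p d n)) 1) = 0 := h9
      rw [← map_zero (blk k (2 * p + d))] at h9'
      have h10 := (blk k (2 * p + d)).injective h9'
      have h11 := congrFun (congrFun h10 (io p d j)) (sg p d (io p d n))
      unfold eH at h11
      have hne : io p d n ≠ io p d j := by
        intro h
        have := congrArg Fin.val h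
        rw [io_val, io_val] at this
        exact hjn.ne' (Fin.ext this)
      rw [Matrix.sub_apply, Matrix.single_apply_same, sg_sg,
        Matrix.single_apply_of_row_ne hne, sub_zero, Matrix.zero_apply] at h11
      have h12 := congrFun (congrFun h11 ⟨0, hk⟩) ⟨0, hk⟩
      rw [Matrix.one_apply_eq, Matrix.zero_apply] at h12
      exact one_ne_zero h12
    · right
      obtain ⟨j, rfl⟩ := Rs_one hu h
      exact ⟨j, rfl⟩
    · exfalso
      rcases Rs_sm hu' with h' | h' | h' <;> linarith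
  refine ⟨ryh p d k 𝔻 hk hT hdiv, ?_⟩
  intro ρ β γ hρ hρ2 hβ hγ _ _ _ _ hρβ hβγ hρβγ
  obtain ⟨i, rfl⟩ := dbl ρ hρ hρ2
  rcases opt i β hβ hρβ with h | ⟨j, rfl⟩
  · exact Or.inl h
  have hs' : IsRt (datH p d 𝔻) (FF p d hk 𝔻 (ee i) + (FF p d hk 𝔻 (ee j) + γ)) := by
    rw [← add_assoc]
    exact hρβγ
  rcases opt i (FF p d hk 𝔻 (ee j) + γ) hβγ hs' with h | ⟨l, hl⟩
  · exact Or.inr (Or.inr (Or.inl h))
  refine Or.inr (Or.inr (Or.inr ?_))
  have hγe : γ = FF p d hk 𝔻 (ee l - ee j) := by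
    rw [FF_sub, ← hl]
    abel
  obtain ⟨v, hv, hvv⟩ := root γ hγ
  have hv2 : ee l - ee j = v := FF_inj hk 𝔻 h4 (hγe.symm.trans hvv)
  have hRs : Rs (ee l - ee j) := by rw [hv2]; exact hv
  have hsm0 : sm (ee l - ee j) = 0 := by rw [sm_sub, sm_ee, sm_ee]; ring
  -- `l < j`
  have hlj : l < j := by
    obtain ⟨a, b, hab, he⟩ := Rs_zero hRs hsm0
    have ha := congrFun he a
    have hb := congrFun he b
    rw [Pi.sub_apply, Pi.sub_apply, ee_self, ee_apply b a, if_neg hab.ne] at ha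
    rw [Pi.sub_apply, Pi.sub_apply, ee_self, ee_apply a b, if_neg hab.ne'] at hb
    have e1 : a = l := by
      by_contra hne
      rw [ee_apply l a, if_neg hne] at ha
      have := ee_nonneg j a
      linarith
    have e2 : b = j := by
      by_contra hne
      rw [ee_apply j b, if_neg hne] at hb
      have := ee_nonneg l b
      linarith
    rw [← e1, ← e2]
    exact hab
  intro u w hu hw h0
  obtain ⟨y, hy, rfl⟩ := hu.1.1
  obtain ⟨x, hx, rfl⟩ := hw.1.1
  have hioj : io p d l ≠ io p d j := by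
    intro h
    have := congrArg Fin.val h
    rw [io_val, io_val] at this
    exact hlj.ne (Fin.ext this)
  have hiosg : ∀ a b : Fin p, io p d a ≠ sg p d (io p d b) := by
    intro a b h
    have := congrArg Fin.val h
    rw [io_val, sg_io_val] at this
    have h5 := a.2
    have h6 := b.2
    omega
  -- the places of the blocks of `y`
  have hyp : ∀ a b, y a b ≠ 0 → (a = io p d j ∧ Md p d b) ∨ (Md p d a ∧ b = sg p d (io p d j)) := by
    intro a b hab
    have he := h2 _ y hy hu.1 a b hab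
    rcases places hy hab with ⟨m, n, hmn, rfl, rfl⟩ | ⟨m, rfl, hb⟩ | ⟨m, n, rfl, rfl⟩ |
      ⟨m, ha, rfl⟩ | ⟨m, n, hmn, rfl, rfl⟩
    · exfalso
      have h6 : FF p d hk 𝔻 (ee j) = FF p d hk 𝔻 (ee m - ee n) := by
        rw [he, FF_sub, FF_ee, FF_ee]
      have h7 := congrArg sm (FF_inj hk 𝔻 h4 h6)
      rw [sm_sub, sm_ee, sm_ee, sm_ee] at h7
      norm_num at h7
    · left
      refine ⟨?_, hb⟩
      have h6 : FF p d hk 𝔻 (ee j) = FF p d hk 𝔻 (ee m) := by
        rw [he, cH_md hk 𝔻 h3 hb, sub_zero, FF_ee]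
      have h7 := congrFun (FF_inj hk 𝔻 h4 h6) j
      rw [ee_self, ee_apply m j] at h7
      by_cases e : j = m
      · rw [e]
      · rw [if_neg e] at h7
        norm_num at h7
    · exfalso
      have h6 : FF p d hk 𝔻 (ee j) = FF p d hk 𝔻 (ee m + ee n) := by
        rw [he, h3, FF_add, FF_ee, FF_ee, sub_neg_eq_add]
      have h7 := congrArg sm (FF_inj hk 𝔻 h4 h6)
      rw [sm_add, sm_ee, sm_ee, sm_ee] at h7
      norm_num at h7
    · right
      refine ⟨ha, ?_⟩
      have h6 : FF p d hk 𝔻 (ee j) = FF p d hk 𝔻 (ee m) := by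
        rw [he, cH_md hk 𝔻 h3 ha, h3, FF_ee, zero_sub, neg_neg]
      have h7 := congrFun (FF_inj hk 𝔻 h4 h6) j
      rw [ee_self, ee_apply m j] at h7
      by_cases e : j = m
      · rw [e]
      · rw [if_neg e] at h7
        norm_num at h7
    · exfalso
      have h6 : FF p d hk 𝔻 (ee j) = FF p d hk 𝔻 (ee n - ee m) := by
        rw [he, h3, h3, FF_sub, FF_ee, FF_ee]
        abel
      have h7 := congrArg sm (FF_inj hk 𝔻 h4 h6)
      rw [sm_sub, sm_ee, sm_ee, sm_ee] at h7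
      norm_num at h7
  -- the places of the blocks of `x`
  have hcmp : ∀ m n : Fin p, FF p d hk 𝔻 (ee l - ee j) = FF p d hk 𝔻 (ee m - ee n) → m < n →
      m = l ∧ n = j := by
    intro m n h hmn
    have he := FF_inj hk 𝔻 h4 h
    have ha := congrFun he m
    have hb := congrFun he n
    rw [Pi.sub_apply, Pi.sub_apply, ee_self, ee_apply n m, if_neg hmn.ne] at ha
    rw [Pi.sub_apply, Pi.sub_apply, ee_self, ee_apply m n, if_neg hmn.ne'] at hb
    constructor
    · by_contra hne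
      rw [ee_apply l m, if_neg hne] at ha
      have := ee_nonneg j m
      linarith
    · by_contra hne
      rw [ee_apply j n, if_neg hne] at hb
      have := ee_nonneg l n
      linarith
  have hxp : ∀ a b, x a b ≠ 0 → (a = io p d l ∧ b = io p d j) ∨
      (a = sg p d (io p d j) ∧ b = sg p d (io p d l)) := by
    intro a b hab
    have he := h2 _ x hx hw.1 a b hab
    rw [hγe] at he
    rcases places hx hab with ⟨m, n, hmn, rfl, rfl⟩ | ⟨m, rfl, hb⟩ | ⟨m, n, rfl, rfl⟩ |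
      ⟨m, ha, rfl⟩ | ⟨m, n, hmn, rfl, rfl⟩
    · left
      have h6 : FF p d hk 𝔻 (ee l - ee j) = FF p d hk 𝔻 (ee m - ee n) := by
        rw [he, FF_sub, FF_ee, FF_ee]
      obtain ⟨e1, e2⟩ := hcmp m n h6 hmn
      rw [e1, e2]
      exact ⟨rfl, rfl⟩
    · exfalso
      have h6 : FF p d hk 𝔻 (ee l - ee j) = FF p d hk 𝔻 (ee m) := by
        rw [he, cH_md hk 𝔻 h3 hb, sub_zero, FF_ee]
      have h7 := congrArg sm (FF_inj hk 𝔻 h4 h6)
      rw [hsm0, sm_ee] at h7
      norm_num at h7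
    · exfalso
      have h6 : FF p d hk 𝔻 (ee l - ee j) = FF p d hk 𝔻 (ee m + ee n) := by
        rw [he, h3, FF_add, FF_ee, FF_ee, sub_neg_eq_add]
      have h7 := congrArg sm (FF_inj hk 𝔻 h4 h6)
      rw [hsm0, sm_add, sm_ee, sm_ee] at h7
      norm_num at h7
    · exfalso
      have h6 : FF p d hk 𝔻 (ee l - ee j) = FF p d hk 𝔻 (ee m) := by
        rw [he, cH_md hk 𝔻 h3 ha, h3, FF_ee, zero_sub, neg_neg]
      have h7 := congrArg sm (FF_inj hk 𝔻 h4 h6)
      rw [hsm0, sm_ee] at h7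
      norm_num at h7
    · right
      have h6 : FF p d hk 𝔻 (ee l - ee j) = FF p d hk 𝔻 (ee n - ee m) := by
        rw [he, h3, h3, FF_sub, FF_ee, FF_ee]
        abel
      obtain ⟨e1, e2⟩ := hcmp n m h6 hmn
      rw [e1, e2]
      exact ⟨rfl, rfl⟩
  have hxA : x (io p d l) (io p d j) ≠ 0 := by
    obtain ⟨a, b, hab⟩ := ex_block hw.2
    rcases hxp a b hab with ⟨ha, hb⟩ | ⟨ha, hb⟩
    · rw [ha, hb] at hab
      exact hab
    · rw [ha, hb, hx.2.1] at hab
      intro h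
      apply hab
      rw [h, Matrix.transpose_zero, neg_zero]
  obtain ⟨r, hr⟩ : ∃ r, y (io p d j) r ≠ 0 := by
    obtain ⟨a, b, hab⟩ := ex_block hu.2
    rcases hyp a b hab with ⟨ha, _⟩ | ⟨ha, hb⟩
    · rw [ha] at hab
      exact ⟨b, hab⟩
    · refine ⟨a, ?_⟩
      intro h
      apply hab
      have h5 := hy.2.1 (io p d j) a
      rw [sg_mid ha] at h5
      rw [hb, h5, h, Matrix.transpose_zero, neg_zero]
  -- the row `io l` of `y` is `0`
  have hy0 : ∀ s, y (io p d l) s = 0 := by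
    intro s
    by_contra hs
    rcases hyp _ _ hs with ⟨h5, _⟩ | ⟨h5, _⟩
    · exact hioj h5
    · exact io_out l h5
  have hym : ∀ z : Matrix (Fin (2 * p + d)) (Fin (2 * p + d)) (Matrix (Fin k) (Fin k) ℝ), ∀ s,
      (y * z) (io p d l) s = 0 := by
    intro z s
    rw [Matrix.mul_apply]
    refine Finset.sum_eq_zero fun t _ => ?_
    rw [hy0, zero_mul]
  have hxy : ∀ s, (x * y) (io p d l) s = x (io p d l) (io p d j) * y (io p d j) s := by
    intro s
    rw [Matrix.mul_apply, Finset.sum_eq_single (io p d j)]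
    · intro t _ ht
      by_cases h5 : x (io p d l) t = 0
      · rw [h5, zero_mul]
      · rcases hxp _ _ h5 with ⟨_, h6⟩ | ⟨h6, _⟩
        · exact absurd h6 ht
        · exact absurd h6 (hiosg l j)
    · intro h
      exact absurd (Finset.mem_univ _) h
  have h9 : blk k (2 * p + d) ((x * y - y * x) * y - y * (x * y - y * x)) = 0 := by
    rw [map_sub, map_mul, map_mul, map_sub, map_mul, map_mul]
    exact h0
  have h10 : (x * y - y * x) * y - y * (x * y - y * x) = 0 := by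
    rw [← map_zero (blk k (2 * p + d))] at h9
    exact (blk k (2 * p + d)).injective h9
  have h11 := congrFun (congrFun h10 (io p d l)) (sg p d (io p d j))
  rw [Matrix.sub_apply, hym, sub_zero, Matrix.mul_apply, Matrix.zero_apply] at h11
  have h12 : ∀ s, (x * y - y * x) (io p d l) s * y s (sg p d (io p d j)) =
      - (x (io p d l) (io p d j) * (y (io p d j) s * (y (io p d j) s)ᵀ)) := by
    intro s
    rw [Matrix.sub_apply, hym, sub_zero, hxy]
    by_cases h5 : y (io p d j) s = 0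
    · rw [h5, mul_zero, zero_mul, zero_mul, mul_zero, neg_zero]
    · rcases hyp _ _ h5 with ⟨_, h6⟩ | ⟨h6, _⟩
      · have h7 := hy.2.1 (io p d j) s
        rw [sg_mid h6] at h7
        rw [h7, mul_neg, mul_assoc]
      · exact absurd h6 (io_out j)
  rw [Finset.sum_congr rfl (fun s _ => h12 s), Finset.sum_neg_distrib, neg_eq_zero,
    ← Finset.mul_sum] at h11
  obtain ⟨c, _, hc⟩ := hdiv _ (hx.1.1 (io p d l) (io p d j)) hxA
  have hc' : c * x (io p d l) (io p d j) = 1 := mul_eq_one_comm.1 hc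
  have h13 : ∑ s, y (io p d j) s * (y (io p d j) s)ᵀ = 0 := by
    calc ∑ s, y (io p d j) s * (y (io p d j) s)ᵀ
        = (c * x (io p d l) (io p d j)) * ∑ s, y (io p d j) s * (y (io p d j) s)ᵀ := by
          rw [hc', one_mul]
      _ = c * (x (io p d l) (io p d j) * ∑ s, y (io p d j) s * (y (io p d j) s)ᵀ) :=
          mul_assoc _ _ _
      _ = 0 := by rw [h11, mul_zero]
  have h14 := congrArg Matrix.trace h13
  rw [Matrix.trace_sum, Matrix.trace_zero,
    Finset.sum_eq_zero_iff_of_nonneg (fun s _ => rqh_nn _)] at h14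
  exact hr (rqh_zero _ (h14 r (Finset.mem_univ r)))

end Pool.Agent.QSB.H13
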