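import Pool.Agent.QSB.StmtsS

set_option autoImplicit false

namespace Pool.Agent.QSB.H13

open Matrix Finset Pool.Agent.QSX

theorem rrs (rys : RysStmt) (ijs : IjsStmt) (tws : TwsStmt) : RrsStmt :=
  fun Y h => ⟨rys Y h, ijs Y h, tws Y h⟩

end Pool.Agent.QSB.H13
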