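import Pool.Agent.QSB.StmtsS

set_option autoImplicit false

namespace Pool.Agent.QSB.H13

open Matrix Finset Pool.Agent.QSX

theorem spr (gwb : GwbStmt) (int : IntStmt) : SprStmt := by
  intro X hS α β hα hβ hne
  obtain ⟨S⟩ := hS
  obtain ⟨⟨x, hx⟩, hαs⟩ := hα
  obtain ⟨⟨y, hy⟩, hβs⟩ := hβ
  obtain ⟨g1, g2, g3, g4, g5⟩ := gwb X S
  by_contra hcon
  have hip : 0 < ip X α β := not_le.1 hcon
  obtain ⟨hxG, hxp⟩ := g1 α x hx
  obtain ⟨hyG, hyp⟩ := g1 β y hy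
  have hyT : GW S (-β) yᵀ := g3 β y hyG
  have hβ0 : -β ≠ 0 := by
    intro h
    have h1 : β = 0 := neg_eq_zero.1 h
    rw [h1] at hyp
    simp at hyp
  have hneg : ip X α (-β) < 0 := by
    rw [ip_neg_right]
    linarith
  have hu : yᵀ * x - x * yᵀ ≠ 0 := (int X S (-β) α yᵀ x hyT hβ0 hxG).2.1 hneg
  have huG : GW S (-β + α) (yᵀ * x - x * yᵀ) := g4 (-β) α yᵀ x hyT hxG hu
  have hne0 : (-β + α) S.a₀ ≠ 0 := by
    intro h
    have h1 := g5 (-β + α) _ huG h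
    apply hne
    have h2 : α = β + (-β + α) := by abel
    rw [h2, h1, add_zero]
  rcases lt_or_gt_of_ne hne0 with hlt | hgt
  · have h1 : GW S (-(-β + α)) (yᵀ * x - x * yᵀ)ᵀ := g3 _ _ huG
    have h2 : 0 < (-(-β + α)) S.a₀ := by
      rw [LinearMap.neg_apply]
      linarith
    have h3 : IsRt X (-(-β + α)) := ⟨_, g2 _ _ h1 h2⟩
    refine hβs α (-(-β + α)) ⟨x, hx⟩ h3 ?_
    abel
  · have h3 : IsRt X (-β + α) := ⟨_, g2 _ _ huG hgt⟩
    refine hαs β (-β + α) ⟨y, hy⟩ h3 ?_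
    abel

end Pool.Agent.QSB.H13
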